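import Pool.Agent.W537.TT.Tors2

/-!
# The relations of bounded degree
-/

set_option linter.unusedSectionVars false

namespace Pool.Agent.W537.TD

open Pool.Agent.W537.DB Pool.Agent.W537.TT MvPolynomial

noncomputable section

section degree

variable {R : Type} [CommRing R] {N N' : Type}

theorem deg_sum {J : Type} (s : Finset J) (f : J → MvPolynomial N R) {δ : ℕ}
    (h : ∀ j ∈ s, (f j).totalDegree ≤ δ) : (∑ j ∈ s, f j).totalDegree ≤ δ :=
  totalDegree_finsetSum_le h

theorem deg_C_mul {a : R} {p : MvPolynomial N R} {δ : ℕ} (h : p.totalDegree ≤ δ) :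
    (C a * p).totalDegree ≤ δ := by
  refine (totalDegree_mul _ _).trans ?_
  rw [totalDegree_C, zero_add]
  exact h

/-- The degree does not increase by a substitution of linear forms. -/
theorem deg_subst {A : Type} [CommRing A] [Algebra A R] (M : N → MvPolynomial N' R)
    (hM : ∀ n, (M n).totalDegree ≤ 1) (p : MvPolynomial N A) :
    (aeval M p : MvPolynomial N' R).totalDegree ≤ p.totalDegree := by
  rw [aeval_def, eval₂_eq]
  refine deg_sum _ _ fun α hα => ?_
  change (C (algebraMap A R (coeff α p)) * _ : MvPolynomial N' R).totalDegree ≤ _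
  refine deg_C_mul ?_
  refine (totalDegree_finsetProd _ _).trans ?_
  have h1 : ∑ i ∈ α.support, ((M i) ^ (α i)).totalDegree ≤ ∑ i ∈ α.support, α i := by
    refine Finset.sum_le_sum fun i _ => ?_
    refine (totalDegree_pow _ _).trans ?_
    calc α i * (M i).totalDegree ≤ α i * 1 := Nat.mul_le_mul_left _ (hM i)
      _ = α i := mul_one _
  refine h1.trans ?_
  exact le_totalDegree hα

/-- The degree does not increase by a linear derivation. -/
theorem deg_der (M : N → MvPolynomial N R) (hM : ∀ n, (M n).totalDegree ≤ 1)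
    (p : MvPolynomial N R) : (mkDerivation R M p).totalDegree ≤ p.totalDegree := by
  conv_lhs => rw [← support_sum_monomial_coeff p]
  rw [map_sum]
  refine deg_sum _ _ fun α hα => ?_
  rw [mkDerivation_monomial]
  rw [smul_eq_C_mul]
  refine deg_C_mul ?_
  refine deg_sum _ _ fun i hi => ?_
  change ((monomial (α - Finsupp.single i 1)) ((α i : ℕ) : R) * M i).totalDegree ≤ _
  refine (totalDegree_mul _ _).trans ?_
  have h1 : (monomial (α - Finsupp.single i 1) ((α i : ℕ) : R)).totalDegree ≤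
      (α - Finsupp.single i 1).sum fun _ e => e := totalDegree_monomial_le _ _
  have h2 : (α - Finsupp.single i 1) + Finsupp.single i 1 = α := by
    ext j
    rw [Finsupp.add_apply, Finsupp.tsub_apply]
    by_cases hj : i = j
    · subst hj
      have h3 : α i ≠ 0 := Finsupp.mem_support_iff.1 hi
      rw [Finsupp.single_eq_same]
      omega
    · rw [Finsupp.single_eq_of_ne (Ne.symm hj)]
      omega
  have h3 : (α.sum fun _ e => e) = ((α - Finsupp.single i 1).sum fun _ e => e) + 1 := by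
    conv_lhs => rw [← h2]
    rw [Finsupp.sum_add_index' (fun _ => rfl) (fun _ _ _ => rfl),
      Finsupp.sum_single_index rfl]
  have h4 : (α.sum fun _ e => e) ≤ p.totalDegree := le_totalDegree hα
  have h5 := hM i
  omega

end degree

variable {N : Type} [Fintype N] [DecidableEq N]

/-- The points with coordinates in `B` where all relations of degree at most `δ` with algebraic
coefficients between the coordinates of `c` are satisfied. -/
def ptsD (δ : ℕ) (c : N → ℂ) (B : Type) [CommRing B] [Algebra Qb B] : Set (N → B) :=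
  {z | ∀ p : MvPolynomial N Qb, p.totalDegree ≤ δ → aeval c p = 0 → aeval z p = 0}

theorem self_memD (δ : ℕ) (c : N → ℂ) : c ∈ ptsD δ c ℂ := fun _ _ h => h

/-- Decomposition of a complex polynomial of degree at most `δ` which vanishes at all algebraic
points of the zero set of the relations where `d` does not vanish. -/
theorem nullD (δ : ℕ) (c : N → ℂ) (d : MvPolynomial N Qb) (hd : aeval c d ≠ 0)
    (f : MvPolynomial N ℂ) (hfδ : f.totalDegree ≤ δ)
    (hf : ∀ z : N → Qb, (fun n => ((z n : Qb) : ℂ)) ∈ ptsD δ c ℂ →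
      aeval (fun n => ((z n : Qb) : ℂ)) d ≠ 0 → eval (fun n => ((z n : Qb) : ℂ)) f = 0) :
    ∃ (J : Type) (s : Finset J) (b : J → ℂ) (g : J → MvPolynomial N Qb),
      (∀ j ∈ s, (g j).totalDegree ≤ δ ∧ aeval c (g j) = 0) ∧
      f = ∑ j ∈ s, C (b j) * map (algebraMap Qb ℂ) (g j) := by
  classical
  let β := Module.Basis.ofVectorSpace Qb ℂ
  let s : Finset (Module.Basis.ofVectorSpaceIndex Qb ℂ) :=
    f.support.biUnion fun α => (β.repr (coeff α f)).support
  let g : Module.Basis.ofVectorSpaceIndex Qb ℂ → MvPolynomial N Qb := fun j =>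
    ∑ α ∈ f.support, monomial α (β.repr (coeff α f) j)
  have hgδ : ∀ j, (g j).totalDegree ≤ δ := by
    intro j
    refine deg_sum _ _ fun α hα => ?_
    refine (totalDegree_monomial_le _ _).trans ?_
    exact (le_totalDegree hα).trans hfδ
  have hco : ∀ α ∈ f.support,
      coeff α f = ∑ j ∈ s, β j * algebraMap Qb ℂ (β.repr (coeff α f) j) := by
    intro α hα
    have h1 := β.linearCombination_repr (coeff α f)
    rw [Finsupp.linearCombination_apply] at h1
    conv_lhs => rw [← h1]
    rw [Finsupp.sum_of_support_subset (s := s)]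
    · refine Finset.sum_congr rfl fun j _ => ?_
      rw [Algebra.smul_def, mul_comm]
    · exact Finset.subset_biUnion_of_mem (fun α => (β.repr (coeff α f)).support) hα
    · intro j _
      exact zero_smul _ _
  have hfg : f = ∑ j ∈ s, C (β j) * map (algebraMap Qb ℂ) (g j) := by
    have h1 : ∀ j, C (β j) * map (algebraMap Qb ℂ) (g j) =
        ∑ α ∈ f.support, monomial α (β j * algebraMap Qb ℂ (β.repr (coeff α f) j)) := by
      intro j
      rw [map_sum, Finset.mul_sum]
      refine Finset.sum_congr rfl fun α _ => ?_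
      rw [map_monomial, C_mul_monomial]
    rw [Finset.sum_congr rfl fun j _ => h1 j, Finset.sum_comm]
    conv_lhs => rw [← support_sum_monomial_coeff f]
    refine Finset.sum_congr rfl fun α hα => ?_
    conv_lhs => rw [hco α hα]
    rw [map_sum]
  refine ⟨_, s, β, g, fun j hj => ⟨hgδ j, ?_⟩, hfg⟩
  -- the components vanish at the algebraic points
  have hz : ∀ z : N → Qb, (fun n => ((z n : Qb) : ℂ)) ∈ ptsD δ c ℂ →
      aeval (fun n => ((z n : Qb) : ℂ)) d ≠ 0 → aeval z (g j) = 0 := by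
    intro z hz hdz
    have h1 := hf z hz hdz
    rw [hfg, map_sum] at h1
    have h2 : ∀ j, eval (fun n => ((z n : Qb) : ℂ)) (C (β j) * map (algebraMap Qb ℂ) (g j)) =
        (aeval z (g j) : Qb) • β j := by
      intro j
      rw [map_mul, eval_C, eval_map, Algebra.smul_def, mul_comm]
      congr 1
      rw [← aeval_def]
      exact aeval_algebraMap_apply ℂ z (g j)
    rw [Finset.sum_congr rfl fun j _ => h2 j] at h1
    exact linearIndependent_iff'.1 β.linearIndependent s (fun j => aeval z (g j)) h1 j hj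
  -- Nullstellensatz
  let I : Ideal (MvPolynomial N Qb) := Ideal.span {p | p.totalDegree ≤ δ ∧ aeval c p = 0}
  have hI : I ≤ RingHom.ker (aeval c : MvPolynomial N Qb →ₐ[Qb] ℂ) := by
    rw [Ideal.span_le]
    exact fun p hp => hp.2
  have h3 : g j * d ∈ vanishingIdeal Qb (zeroLocus Qb I) := by
    intro z hzz
    rw [map_mul]
    by_cases hdz : aeval z d = 0
    · rw [hdz, mul_zero]
    · rw [hz z ?_ ?_, zero_mul]
      · intro p hpδ hpc
        have h4 := hzz p (Ideal.subset_span ⟨hpδ, hpc⟩)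
        have h5 := aeval_algebraMap_apply ℂ z p
        rw [h4, map_zero] at h5
        exact h5
      · intro h6
        have h5 := aeval_algebraMap_apply ℂ z d
        apply hdz
        apply (algebraMap Qb ℂ).injective
        rw [map_zero, ← h5]
        exact h6
  rw [vanishingIdeal_zeroLocus_eq_radical] at h3
  obtain ⟨n, hn⟩ := h3
  have h7 : aeval c ((g j * d) ^ n) = 0 := hI hn
  rw [map_pow] at h7
  have h8 : aeval c (g j * d) = 0 := eq_zero_of_pow_eq_zero h7
  rw [map_mul] at h8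
  exact (mul_eq_zero.1 h8).resolve_right hd

/-- Such a polynomial vanishes at all points. -/
theorem nullD_pts (δ : ℕ) (c : N → ℂ) (d : MvPolynomial N Qb) (hd : aeval c d ≠ 0)
    (f : MvPolynomial N ℂ) (hfδ : f.totalDegree ≤ δ)
    (hf : ∀ z : N → Qb, (fun n => ((z n : Qb) : ℂ)) ∈ ptsD δ c ℂ →
      aeval (fun n => ((z n : Qb) : ℂ)) d ≠ 0 → eval (fun n => ((z n : Qb) : ℂ)) f = 0)
    (B : Type) [CommRing B] [Algebra ℂ B] [Algebra Qb B]
    (hB : ∀ a : Qb, algebraMap Qb B a = algebraMap ℂ B (algebraMap Qb ℂ a)) {z : N → B}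
    (hz : z ∈ ptsD δ c B) : aeval z f = 0 := by
  obtain ⟨J, s, b, g, hg, rfl⟩ := nullD δ c d hd f hfδ hf
  rw [map_sum]
  refine Finset.sum_eq_zero fun j hj => ?_
  have h1 : aeval z (map (algebraMap Qb ℂ) (g j)) = aeval z (g j) := by
    rw [aeval_def, aeval_def, eval₂_map]
    congr 1
    exact RingHom.ext fun a => (hB a).symm
  rw [map_mul, h1, hz _ (hg j hj).1 (hg j hj).2, mul_zero]

/-- There is an algebraic point where `d` does not vanish. -/
theorem exists_alg_pointD (δ : ℕ) (c : N → ℂ) (d : MvPolynomial N Qb) (hd : aeval c d ≠ 0) :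
    ∃ z : N → Qb, (fun n => ((z n : Qb) : ℂ)) ∈ ptsD δ c ℂ ∧
      aeval (fun n => ((z n : Qb) : ℂ)) d ≠ 0 := by
  by_contra h
  push Not at h
  have h1 := nullD_pts δ c d hd 1 (by rw [totalDegree_one]; exact Nat.zero_le _)
    (fun z hz hdz => absurd (h z hz) hdz) ℂ (fun _ => rfl) (self_memD δ c)
  rw [map_one] at h1
  exact one_ne_zero h1

variable {ι : Type} [Fintype ι] [DecidableEq ι]

/-- The matrices which satisfy all relations of degree at most `δ` with algebraic coefficients between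
the entries of `C`. -/
def hull (δ : ℕ) (C : Matrix ι ι ℂ) : Set (Matrix ι ι ℂ) := {z | vc z ∈ ptsD δ (vc C) ℂ}

/-- The invertible matrices which satisfy all relations of degree at most `δ` form a torsor. -/
def IsTorsorUpTo (δ : ℕ) (C : Matrix ι ι ℂ) : Prop :=
  ∀ x y z : Matrix ι ι ℂ, IsUnit x → IsUnit y → IsUnit z →
    x ∈ hull δ C → y ∈ hull δ C → z ∈ hull δ C → x * y⁻¹ * z ∈ hull δ C

theorem self_hull (δ : ℕ) (C : Matrix ι ι ℂ) : C ∈ hull δ C := self_memD δ _

/-- The matrix of linear forms `h X`. -/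
theorem deg_left (h : Matrix ι ι ℂ) (n : ι × ι) :
    (vc (h.map MvPolynomial.C * gm ℂ : Matrix ι ι (MvPolynomial (ι × ι) ℂ)) n).totalDegree ≤ 1 := by
  have hMn : vc (h.map MvPolynomial.C * gm ℂ : Matrix ι ι (MvPolynomial (ι × ι) ℂ)) n =
      ∑ k, (h.map MvPolynomial.C : Matrix ι ι (MvPolynomial (ι × ι) ℂ)) n.1 k *
        (gm ℂ : Matrix ι ι (MvPolynomial (ι × ι) ℂ)) k n.2 := Matrix.mul_apply
  rw [hMn]
  refine deg_sum _ _ fun k _ => ?_
  rw [Matrix.map_apply]
  refine deg_C_mul ?_
  change (X (k, n.2) : MvPolynomial (ι × ι) ℂ).totalDegree ≤ 1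
  exact (totalDegree_X _).le

/-- A matrix which maps the algebraic invertible points of the hull to points of the hull maps all
points to points. -/
theorem mulLeftD (δ : ℕ) {C : Matrix ι ι ℂ} (hC : IsUnit C) {h : Matrix ι ι ℂ}
    (hh : ∀ z : Matrix ι ι Qb, z.map (algebraMap Qb ℂ) ∈ hull δ C →
      IsUnit (z.map (algebraMap Qb ℂ)) → h * z.map (algebraMap Qb ℂ) ∈ hull δ C)
    (B : Type) [CommRing B] [Algebra ℂ B] [Algebra Qb B]
    (hB : ∀ a : Qb, algebraMap Qb B a = algebraMap ℂ B (algebraMap Qb ℂ a)) {z : Matrix ι ι B}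
    (hz : vc z ∈ ptsD δ (vc C) B) : vc (h.map (algebraMap ℂ B) * z) ∈ ptsD δ (vc C) B := by
  intro p hpδ hp
  let M : Matrix ι ι (MvPolynomial (ι × ι) ℂ) := h.map MvPolynomial.C * gm ℂ
  have hM : ∀ (B : Type) [CommRing B] [Algebra ℂ B] (z : Matrix ι ι B) (n : ι × ι),
      aeval (vc z) (vc M n) = vc (h.map (algebraMap ℂ B) * z) n := by
    intro B _ _ z n
    have hMn : vc M n = ∑ k, (h.map MvPolynomial.C : Matrix ι ι (MvPolynomial (ι × ι) ℂ)) n.1 k *
        (gm ℂ : Matrix ι ι (MvPolynomial (ι × ι) ℂ)) k n.2 := Matrix.mul_apply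
    rw [hMn]
    change _ = (h.map (algebraMap ℂ B) * z) n.1 n.2
    rw [Matrix.mul_apply, map_sum]
    refine Finset.sum_congr rfl fun k _ => ?_
    rw [map_mul, Matrix.map_apply, algHom_C, Matrix.map_apply]
    change _ * aeval (vc z) (X (k, n.2)) = _
    rw [aeval_X]
    rfl
  have hd : aeval (vc C) (gm Qb : Matrix ι ι (MvPolynomial (ι × ι) Qb)).det ≠ 0 := by
    rw [aeval_det]
    exact det_ne hC
  have h1 := nullD_pts δ (vc C) _ hd (aeval (vc M) p) ((deg_subst _ (deg_left h) p).trans hpδ) ?_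
    B hB hz
  · rw [aeval_subst hB] at h1
    simp only [hM] at h1
    exact h1
  · intro y hy hdy
    let Y : Matrix ι ι Qb := Matrix.of fun i j => y (i, j)
    have e1 : (fun n => ((y n : Qb) : ℂ)) = vc (Y.map (algebraMap Qb ℂ)) := rfl
    have h2 := aeval_subst (B := ℂ) (fun _ => rfl) (vc M) p (fun n => ((y n : Qb) : ℂ))
    rw [e1] at h2 hy hdy ⊢
    simp only [hM] at h2
    rw [aeval_det] at hdy
    have h3 := hh Y hy ((Matrix.isUnit_iff_isUnit_det _).2 (isUnit_iff_ne_zero.2 hdy)) p hpδ hp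
    rw [← coe_aeval_eq_eval]
    change aeval _ _ = _
    rw [h2]
    exact h3

/-- The tangent vectors at a translated point. -/
theorem ep_mulLeftD (δ : ℕ) {C : Matrix ι ι ℂ} (hC : IsUnit C) {h : Matrix ι ι ℂ}
    (hh : ∀ z : Matrix ι ι Qb, z.map (algebraMap Qb ℂ) ∈ hull δ C →
      IsUnit (z.map (algebraMap Qb ℂ)) → h * z.map (algebraMap Qb ℂ) ∈ hull δ C)
    {z w : Matrix ι ι ℂ} (hz : ep (vc z) (vc w) ∈ ptsD δ (vc C) (DualNumber ℂ)) :
    ep (vc (h * z)) (vc (h * w)) ∈ ptsD δ (vc C) (DualNumber ℂ) := by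
  have h1 := mulLeftD δ hC hh (DualNumber ℂ) (fun _ => rfl) (z := epM z w) hz
  rw [mul_epM] at h1
  exact h1

/-- There is an invertible algebraic point. -/
theorem exists_alg_matrixD (δ : ℕ) {C : Matrix ι ι ℂ} (hC : IsUnit C) : ∃ z : Matrix ι ι Qb,
    z.map (algebraMap Qb ℂ) ∈ hull δ C ∧ IsUnit (z.map (algebraMap Qb ℂ)) := by
  have hd : aeval (vc C) (gm Qb : Matrix ι ι (MvPolynomial (ι × ι) Qb)).det ≠ 0 := by
    rw [aeval_det]
    exact det_ne hC
  obtain ⟨y, hy, hdy⟩ := exists_alg_pointD δ (vc C) _ hd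
  let Y : Matrix ι ι Qb := Matrix.of fun i j => y (i, j)
  have e1 : (fun n => ((y n : Qb) : ℂ)) = vc (Y.map (algebraMap Qb ℂ)) := rfl
  rw [e1] at hy hdy
  rw [aeval_det] at hdy
  exact ⟨Y, hy, (Matrix.isUnit_iff_isUnit_det _).2 (isUnit_iff_ne_zero.2 hdy)⟩

end

end Pool.Agent.W537.TD
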