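import Pool.Agent.W537.TD.A

/-!
# The tangent space of the zero set of the relations of bounded degree
-/

set_option linter.unusedSectionVars false

namespace Pool.Agent.W537.TD

open Pool.Agent.W537.DB Pool.Agent.W537.TT MvPolynomial

noncomputable section

variable {ι : Type} [Fintype ι] [DecidableEq ι]

/-- The derivative of the polynomial `q` at `z` in the direction `z Y`. -/
def tg (z : Matrix ι ι ℂ) (q : MvPolynomial (ι × ι) Qb) : Matrix ι ι ℂ →ₗ[ℂ] ℂ where
  toFun Y := (aeval (ep (vc z) (vc (z * Y))) q).snd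
  map_add' Y Y' := by
    rw [snd_aeval_ep, snd_aeval_ep, snd_aeval_ep, ← Finset.sum_add_distrib]
    refine Finset.sum_congr rfl fun n _ => ?_
    have h1 : vc (z * (Y + Y')) n = vc (z * Y) n + vc (z * Y') n := by
      rw [Matrix.mul_add]
      rfl
    rw [h1, mul_add]
  map_smul' c Y := by
    rw [snd_aeval_ep, snd_aeval_ep, RingHom.id_apply, smul_eq_mul, Finset.mul_sum]
    refine Finset.sum_congr rfl fun n _ => ?_
    rw [Matrix.mul_smul]
    change _ * (c * vc (z * Y) n) = _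
    ring

theorem tg_def (z : Matrix ι ι ℂ) (q : MvPolynomial (ι × ι) Qb) (Y : Matrix ι ι ℂ) :
    tg z q Y = (aeval (ep (vc z) (vc (z * Y))) q).snd := rfl

theorem tg_C (z : Matrix ι ι ℂ) (a : Qb) (Y : Matrix ι ι ℂ) : tg z (C a) Y = 0 := by
  rw [tg_def, algHom_C]
  rfl

theorem tg_add (z : Matrix ι ι ℂ) (p q : MvPolynomial (ι × ι) Qb) (Y : Matrix ι ι ℂ) :
    tg z (p + q) Y = tg z p Y + tg z q Y := by
  rw [tg_def, map_add, TrivSqZeroExt.snd_add]
  rfl

theorem tg_X (z : Matrix ι ι ℂ) (n : ι × ι) (Y : Matrix ι ι ℂ) :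
    tg z (X n) Y = vc (z * Y) n := by
  rw [tg_def, aeval_X]
  simp [ep]

theorem tg_mul (z : Matrix ι ι ℂ) (p q : MvPolynomial (ι × ι) Qb) (Y : Matrix ι ι ℂ) :
    tg z (p * q) Y = aeval (vc z) p * tg z q Y + tg z p Y * aeval (vc z) q := by
  rw [tg_def, map_mul, TrivSqZeroExt.snd_mul, fst_aeval_ep, fst_aeval_ep, smul_eq_mul,
    MulOpposite.smul_eq_mul_unop, MulOpposite.unop_op]
  rfl

/-- The value of the derivation `Dx`. -/
theorem tg_mC (z : Matrix ι ι ℂ) (x : Matrix ι ι Qb) (q : MvPolynomial (ι × ι) Qb) :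
    tg z q (mC x) = aeval (vc z) (Dx x q) := by
  induction q using MvPolynomial.induction_on with
  | C a =>
    rw [tg_C]
    have h1 : Dx x (C a) = 0 := (Dx x).map_algebraMap a
    rw [h1, map_zero]
  | add p q hp hq => rw [tg_add, hp, hq, map_add, map_add]
  | mul_X p i hp =>
    rw [tg_mul, hp, tg_X, Derivation.leibniz, map_add, smul_eq_mul, smul_eq_mul, map_mul, map_mul,
      aeval_Dx_X, aeval_X]
    ring

/-- The derivative of the value at `C`. -/
theorem der_value {C : Matrix ι ι ℂ} (hC : IsUnit C) (D : Derivation ℤ ℂ ℂ)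
    (q : MvPolynomial (ι × ι) Qb) : D (aeval (vc C) q) = tg C q (C⁻¹ * C.map D) := by
  rw [tg_def, ← Matrix.mul_assoc, mul_inv' hC, Matrix.one_mul]
  have h2 := comp_aeval_apply (vc C) (derA D) q
  have h3 : (fun n => derA D (vc C n)) = ep (vc C) (vc (C.map D)) := rfl
  rw [h3] at h2
  have h4 : ∀ x, (derA D x).snd = D x := fun x => by
    change (TrivSqZeroExt.inl x + TrivSqZeroExt.inr (D x)).snd = D x
    simp
  rw [← h2, h4]

theorem deg_Dx (x : Matrix ι ι Qb) (p : MvPolynomial (ι × ι) Qb) :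
    (Dx x p).totalDegree ≤ p.totalDegree := by
  refine deg_der _ (fun n => ?_) p
  have hMn : vc (gm Qb * x.map MvPolynomial.C : Matrix ι ι (MvPolynomial (ι × ι) Qb)) n =
      ∑ k, (gm Qb : Matrix ι ι (MvPolynomial (ι × ι) Qb)) n.1 k *
        (x.map MvPolynomial.C : Matrix ι ι (MvPolynomial (ι × ι) Qb)) k n.2 := Matrix.mul_apply
  rw [hMn]
  refine deg_sum _ _ fun k _ => ?_
  rw [Matrix.map_apply, mul_comm]
  refine deg_C_mul ?_
  change (X (n.1, k) : MvPolynomial (ι × ι) Qb).totalDegree ≤ 1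
  exact (totalDegree_X _).le

theorem Dx_comm (x y : Matrix ι ι Qb) (p : MvPolynomial (ι × ι) Qb) :
    Dx x (Dx y p) - Dx y (Dx x p) = Dx (x * y - y * x) p := by
  have h1 : ⁅Dx x, Dx y⁆ = Dx (x * y - y * x) := by
    refine derivation_ext fun n => ?_
    rw [Derivation.commutator_apply]
    have key : ∀ x y : Matrix ι ι Qb, Dx x (Dx y (X n)) =
        vc (gm Qb * (x * y).map MvPolynomial.C : Matrix ι ι (MvPolynomial (ι × ι) Qb)) n := by
      intro x y
      have e1 : Dx y (X n) = ∑ k, C (y k n.2) * X (n.1, k) := by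
        unfold Dx
        rw [mkDerivation_X]
        change (gm Qb * y.map MvPolynomial.C : Matrix ι ι (MvPolynomial (ι × ι) Qb)) n.1 n.2 = _
        rw [Matrix.mul_apply]
        refine Finset.sum_congr rfl fun k _ => ?_
        rw [Matrix.map_apply, mul_comm]
        rfl
      rw [e1, map_sum]
      have e2 : ∀ k, Dx x (C (y k n.2) * X (n.1, k)) =
          C (y k n.2) * (gm Qb * x.map MvPolynomial.C :
            Matrix ι ι (MvPolynomial (ι × ι) Qb)) n.1 k := by
        intro k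
        rw [← smul_eq_C_mul, Derivation.map_smul, smul_eq_C_mul]
        unfold Dx
        rw [mkDerivation_X]
        rfl
      rw [Finset.sum_congr rfl fun k _ => e2 k]
      have e3 : (x * y).map MvPolynomial.C =
          (x.map MvPolynomial.C * y.map MvPolynomial.C : Matrix ι ι (MvPolynomial (ι × ι) Qb)) :=
        Matrix.map_mul
      rw [e3, ← Matrix.mul_assoc]
      change _ = (gm Qb * x.map MvPolynomial.C * y.map MvPolynomial.C :
        Matrix ι ι (MvPolynomial (ι × ι) Qb)) n.1 n.2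
      rw [Matrix.mul_apply]
      refine Finset.sum_congr rfl fun k _ => ?_
      rw [Matrix.map_apply (M := y), mul_comm]
    rw [key, key]
    unfold Dx
    rw [mkDerivation_X]
    have e4 : (x * y - y * x).map MvPolynomial.C =
        ((x * y).map MvPolynomial.C - (y * x).map MvPolynomial.C :
          Matrix ι ι (MvPolynomial (ι × ι) Qb)) :=
      Matrix.map_sub _ (fun a b => map_sub MvPolynomial.C a b) _ _
    rw [e4, Matrix.mul_sub]
    rfl
  rw [← h1, Derivation.commutator_apply]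

/-- The relations of degree at most `δ`. -/
def IsRel (δ : ℕ) (C : Matrix ι ι ℂ) (p : MvPolynomial (ι × ι) Qb) : Prop :=
  p.totalDegree ≤ δ ∧ aeval (vc C) p = 0

/-- The tangent space at `C` of the set of the solutions of the relations. -/
def tang (δ : ℕ) (C : Matrix ι ι ℂ) : Submodule ℂ (Matrix ι ι ℂ) where
  carrier := {Y | ∀ p, IsRel δ C p → tg C p Y = 0}
  zero_mem' := fun p _ => map_zero _
  add_mem' := fun hx hy p hp => by rw [map_add, hx p hp, hy p hp, add_zero]
  smul_mem' := fun c _ hx p hp => by rw [map_smul, hx p hp, smul_zero]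

theorem ep_mem_iff (δ : ℕ) {C z : Matrix ι ι ℂ} (hz : z ∈ hull δ C) (Y : Matrix ι ι ℂ) :
    ep (vc z) (vc (z * Y)) ∈ ptsD δ (vc C) (DualNumber ℂ) ↔ ∀ p, IsRel δ C p → tg z p Y = 0 := by
  constructor
  · intro h p hp
    rw [tg_def, h p hp.1 hp.2]
    rfl
  · intro h p hp1 hp2
    ext
    · rw [fst_aeval_ep, TrivSqZeroExt.fst_zero]
      exact hz p hp1 hp2
    · rw [← tg_def, h p ⟨hp1, hp2⟩, TrivSqZeroExt.snd_zero]

/-- The translation of the tangent space. -/
theorem tg_of_mem (δ : ℕ) {C : Matrix ι ι ℂ} (hC : IsUnit C) (hT : IsTorsorUpTo δ C)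
    {w Y : Matrix ι ι ℂ} (hw : w ∈ hull δ C) (hwu : IsUnit w) (hY : Y ∈ tang δ C)
    {p : MvPolynomial (ι × ι) Qb} (hp : IsRel δ C p) : tg w p Y = 0 := by
  have h1 := (ep_mem_iff δ (self_hull δ C) Y).2 hY
  have h2 := ep_mulLeftD δ hC (h := w * C⁻¹) (fun z hz hzu =>
    hT w C _ hwu hC hzu hw (self_hull δ C) hz) h1
  rw [← Matrix.mul_assoc, Matrix.mul_assoc w, inv_mul' hC, Matrix.mul_one] at h2
  exact (ep_mem_iff δ hw Y).1 h2 p hp

theorem mem_tang_of (δ : ℕ) {C : Matrix ι ι ℂ} (hC : IsUnit C) (hT : IsTorsorUpTo δ C)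
    {w Y : Matrix ι ι ℂ} (hw : w ∈ hull δ C) (hwu : IsUnit w)
    (hY : ∀ p, IsRel δ C p → tg w p Y = 0) : Y ∈ tang δ C := by
  have h1 := (ep_mem_iff δ hw Y).2 hY
  have h2 := ep_mulLeftD δ hC (h := C * w⁻¹) (fun z hz hzu =>
    hT C w _ hC hwu hzu (self_hull δ C) hw hz) h1
  rw [← Matrix.mul_assoc, Matrix.mul_assoc C, inv_mul' hwu, Matrix.mul_one] at h2
  exact (ep_mem_iff δ (self_hull δ C) Y).1 h2

theorem log_le_tang (δ : ℕ) {C : Matrix ι ι ℂ} (hC : IsUnit C) : logSpace C ≤ tang δ C := by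
  rintro _ ⟨D, rfl⟩ p hp
  rw [← der_value hC, hp.2, map_zero]

/-- The tangent space is defined over the algebraic numbers. -/
theorem tang_algSpan (δ : ℕ) {C : Matrix ι ι ℂ} (hC : IsUnit C) (hT : IsTorsorUpTo δ C) :
    AlgSpan (tang δ C) := by
  obtain ⟨Z, hZ, hZu⟩ := exists_alg_matrixD δ hC
  have key : ∀ y : Matrix ι ι ℂ, y ∈ tang δ C ↔ ∀ p, IsRel δ C p → tg (mC Z) p y = 0 := fun y =>
    ⟨fun hy p hp => tg_of_mem δ hC hT hZ hZu hy hp, mem_tang_of δ hC hT hZ hZu⟩
  let S : Set (ι × ι → ℂ) := {b | ∃ p : MvPolynomial (ι × ι) Qb, IsRel δ C p ∧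
    b = fun q => tg (mC Z) p (mC (Matrix.single q.1 q.2 1))}
  have hS : ∀ b ∈ S, ∀ n, b n ∈ Qb := by
    rintro _ ⟨p, -, rfl⟩ n
    change tg (mC Z) p (mC (Matrix.single n.1 n.2 1)) ∈ Qb
    rw [tg_mC, aeval_mC]
    exact (aeval (vc Z) (Dx (Matrix.single n.1 n.2 1) p) : Qb).2
  have hsum : ∀ (p : MvPolynomial (ι × ι) Qb) (y : Matrix ι ι ℂ),
      tg (mC Z) p y = ∑ q : ι × ι, tg (mC Z) p (mC (Matrix.single q.1 q.2 1)) * vc y q := by
    intro p y
    have h1 : y = ∑ i, ∑ j, y i j • mC (Matrix.single i j 1) := by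
      conv_lhs => rw [Matrix.matrix_eq_sum_single y]
      refine Finset.sum_congr rfl fun i _ => Finset.sum_congr rfl fun j _ => ?_
      ext a b
      simp only [Matrix.smul_apply, Matrix.map_apply, Matrix.single_apply, smul_eq_mul]
      split_ifs
      · rw [map_one, mul_one]
      · rw [map_zero, mul_zero]
    conv_lhs => rw [h1]
    rw [Fintype.sum_prod_type]
    simp only [map_sum, map_smul, smul_eq_mul]
    refine Finset.sum_congr rfl fun i _ => Finset.sum_congr rfl fun j _ => ?_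
    rw [mul_comm]
    rfl
  have hlin : ∀ y : Matrix ι ι ℂ, y ∈ tang δ C ↔ ∀ b ∈ S, ∑ n, b n * vc y n = 0 := by
    intro y
    rw [key]
    constructor
    · rintro h1 _ ⟨p, hp, rfl⟩
      rw [← hsum]
      exact h1 p hp
    · intro h1 p hp
      rw [hsum]
      exact h1 _ ⟨p, hp, rfl⟩
  intro y hy
  have h1 := rational_span Qb S hS ((hlin y).1 hy)
  let L : (ι × ι → ℂ) →ₗ[ℂ] Matrix ι ι ℂ :=
    { toFun := fun w => Matrix.of fun i j => w (i, j)
      map_add' := fun _ _ => rfl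
      map_smul' := fun _ _ => rfl }
  have h2 : L (vc y) ∈ (Submodule.span ℂ
      {u : ι × ι → ℂ | (∀ i, u i ∈ Qb) ∧ ∀ b ∈ S, ∑ i, b i * u i = 0}).map L := ⟨_, h1, rfl⟩
  rw [Submodule.map_span] at h2
  refine Submodule.span_mono ?_ h2
  rintro _ ⟨u, ⟨hu1, hu2⟩, rfl⟩
  exact ⟨(hlin _).2 hu2, fun i j => hu1 (i, j)⟩

/-- The relations are stable under the derivations given by the algebraic elements of the tangent
space. -/
theorem rel_stable (δ : ℕ) {C : Matrix ι ι ℂ} {x : Matrix ι ι Qb} (hx : mC x ∈ tang δ C)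
    {p : MvPolynomial (ι × ι) Qb} (hp : IsRel δ C p) : IsRel δ C (Dx x p) := by
  refine ⟨(deg_Dx x p).trans hp.1, ?_⟩
  rw [← tg_mC]
  exact hx p hp

/-- An algebraic element of a space of matrices. -/
theorem exists_mC {y : Matrix ι ι ℂ} (hy : ∀ i j, y i j ∈ Qb) : ∃ x : Matrix ι ι Qb, mC x = y :=
  ⟨Matrix.of fun i j => ⟨y i j, hy i j⟩, rfl⟩

/-- The tangent space is a Lie algebra. -/
theorem tang_lie (δ : ℕ) {C : Matrix ι ι ℂ} (hC : IsUnit C) (hT : IsTorsorUpTo δ C)
    {x y : Matrix ι ι ℂ} (hx : x ∈ tang δ C) (hy : y ∈ tang δ C) :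
    x * y - y * x ∈ tang δ C := by
  have hL := tang_algSpan δ hC hT
  have h1 := hL x hx
  clear hx
  induction h1 using Submodule.span_induction with
  | mem u hu =>
    have h2 := hL y hy
    clear hy
    induction h2 using Submodule.span_induction with
    | mem v hv =>
      obtain ⟨a, rfl⟩ := exists_mC hu.2
      obtain ⟨b, rfl⟩ := exists_mC hv.2
      have e1 : mC a * mC b - mC b * mC a = mC (a * b - b * a) := by
        rw [← mC_mul, ← mC_mul]
        exact (Matrix.map_sub _ (fun a b => map_sub _ a b) _ _).symm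
      rw [e1]
      intro p hp
      rw [tg_mC, ← Dx_comm, map_sub, (rel_stable δ hu.1 (rel_stable δ hv.1 hp)).2,
        (rel_stable δ hv.1 (rel_stable δ hu.1 hp)).2, sub_zero]
    | zero =>
      rw [Matrix.mul_zero, Matrix.zero_mul, sub_zero]
      exact Submodule.zero_mem _
    | add v w _ _ hv hw =>
      have h3 : u * (v + w) - (v + w) * u = (u * v - v * u) + (u * w - w * u) := by
        rw [Matrix.mul_add, Matrix.add_mul]
        abel
      rw [h3]
      exact Submodule.add_mem _ hv hw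
    | smul a v _ hv =>
      rw [Matrix.mul_smul, Matrix.smul_mul, ← smul_sub]
      exact Submodule.smul_mem _ _ hv
  | zero =>
    rw [Matrix.mul_zero, Matrix.zero_mul, sub_zero]
    exact Submodule.zero_mem _
  | add v w _ _ hv hw =>
    have h3 : (v + w) * y - y * (v + w) = (v * y - y * v) + (w * y - y * w) := by
      rw [Matrix.mul_add, Matrix.add_mul]
      abel
    rw [h3]
    exact Submodule.add_mem _ hv hw
  | smul a v _ hv =>
    rw [Matrix.mul_smul, Matrix.smul_mul, ← smul_sub]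
    exact Submodule.smul_mem _ _ hv

/-! ### Spaces spanned by algebraic matrices -/

/-- An element of a space defined over the algebraic numbers is a finite combination of algebraic
matrices. -/
theorem AlgSpan.exists_sum {L : Submodule ℂ (Matrix ι ι ℂ)} (hL : AlgSpan L) {Y : Matrix ι ι ℂ}
    (hY : Y ∈ L) : ∃ (n : ℕ) (c : Fin n → ℂ) (x : Fin n → Matrix ι ι Qb),
      (∀ i, mC (x i) ∈ L) ∧ Y = ∑ i, c i • mC (x i) := by
  have h1 := hL Y hY
  rw [Submodule.mem_span_set'] at h1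
  obtain ⟨n, c, g, hg⟩ := h1
  refine ⟨n, c, fun i => Matrix.of fun r s => ⟨(g i : Matrix ι ι ℂ) r s, (g i).2.2 r s⟩,
    fun i => (g i).2.1, ?_⟩
  rw [← hg]
  rfl

end

end Pool.Agent.W537.TD
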