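import Pool.Agent.W537.TD.B

/-!
# Exponentials
-/

set_option linter.unusedSectionVars false

namespace Pool.Agent.W537.TD

open Pool.Agent.W537.DB Pool.Agent.W537.TT MvPolynomial

noncomputable section

variable {ι : Type} [Fintype ι] [DecidableEq ι]

section entry

open scoped Matrix.Norms.Operator

theorem hasDeriv_mat (x Y : Matrix ι ι ℂ) (t : ℂ) :
    HasDerivAt (fun u : ℂ => x * NormedSpace.exp (u • Y)) (x * NormedSpace.exp (t • Y) * Y) t := by
  have h1 : HasDerivAt (fun u : ℂ => NormedSpace.exp (u • Y)) (NormedSpace.exp (t • Y) * Y) t :=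
    hasDerivAt_exp_smul_const Y t
  have h2 := h1.const_mul x
  rw [← Matrix.mul_assoc] at h2
  exact h2

theorem hasDeriv_entry (x Y : Matrix ι ι ℂ) (t : ℂ) (n : ι × ι) :
    HasDerivAt (fun u : ℂ => vc (x * NormedSpace.exp (u • Y)) n)
      (vc (x * NormedSpace.exp (t • Y) * Y) n) t := by
  let e : Matrix ι ι ℂ →L[ℂ] ℂ := (Matrix.entryLinearMap ℂ ℂ n.1 n.2).toContinuousLinearMap
  exact e.hasFDerivAt.comp_hasDerivAt t (hasDeriv_mat x Y t)

end entry

/-- The value of the polynomial `p` at `x exp (t Y)`. -/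
def path (x Y : Matrix ι ι ℂ) (p : MvPolynomial (ι × ι) Qb) (t : ℂ) : ℂ :=
  aeval (vc (x * NormedSpace.exp (t • Y))) p

theorem hasDeriv_path (x Y : Matrix ι ι ℂ) (p : MvPolynomial (ι × ι) Qb) (t : ℂ) :
    HasDerivAt (path x Y p) (tg (x * NormedSpace.exp (t • Y)) p Y) t := by
  induction p using MvPolynomial.induction_on with
  | C a =>
    have h1 : path x Y (C a) = fun _ => (a : ℂ) := by
      funext u
      unfold path
      rw [algHom_C]
      rfl
    rw [h1, tg_C]
    exact hasDerivAt_const t _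
  | add p q hp hq =>
    have h1 : path x Y (p + q) = fun u => path x Y p u + path x Y q u := by
      funext u
      unfold path
      rw [map_add]
    rw [h1, tg_add]
    exact hp.add hq
  | mul_X p i hp =>
    have h1 : path x Y (p * X i) =
        fun u => path x Y p u * vc (x * NormedSpace.exp (u • Y)) i := by
      funext u
      unfold path
      rw [map_mul, aeval_X]
    rw [h1, tg_mul, tg_X, aeval_X]
    have h2 := hp.mul (hasDeriv_entry x Y t i)
    rw [add_comm]
    exact h2

theorem path_diff (x Y : Matrix ι ι ℂ) (p : MvPolynomial (ι × ι) Qb) :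
    Differentiable ℂ (path x Y p) := fun t => (hasDeriv_path x Y p t).differentiableAt

theorem path_deriv (x : Matrix ι ι ℂ) {n : ℕ} (c : Fin n → ℂ) (a : Fin n → Matrix ι ι Qb)
    (p : MvPolynomial (ι × ι) Qb) :
    deriv (path x (∑ i, c i • mC (a i)) p) =
      fun t => ∑ i, c i * path x (∑ i, c i • mC (a i)) (Dx (a i) p) t := by
  funext t
  rw [(hasDeriv_path x _ p t).deriv, map_sum]
  refine Finset.sum_congr rfl fun i _ => ?_
  rw [map_smul, tg_mC]
  rfl

/-- If all iterated derivatives of `p` vanish at `x`, then `p` vanishes at `x exp Y`. -/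
theorem vanish_exp (R : MvPolynomial (ι × ι) Qb → Prop) (x : Matrix ι ι ℂ)
    (hx : ∀ p, R p → aeval (vc x) p = 0) {n : ℕ} (c : Fin n → ℂ) (a : Fin n → Matrix ι ι Qb)
    (hR : ∀ i p, R p → R (Dx (a i) p)) {p : MvPolynomial (ι × ι) Qb} (hp : R p) :
    aeval (vc (x * NormedSpace.exp (∑ i, c i • mC (a i)))) p = 0 := by
  set Y : Matrix ι ι ℂ := ∑ i, c i • mC (a i) with hY
  have h0 : ∀ k : ℕ, ∀ p, R p → iteratedDeriv k (path x Y p) 0 = 0 := by
    intro k
    induction k with
    | zero =>
      intro p hp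
      rw [iteratedDeriv_zero]
      unfold path
      rw [zero_smul, NormedSpace.exp_zero, Matrix.mul_one]
      exact hx p hp
    | succ k ih =>
      intro p hp
      rw [iteratedDeriv_succ', hY, path_deriv, ← hY, iteratedDeriv_fun_sum]
      · refine Finset.sum_eq_zero fun i _ => ?_
        rw [iteratedDeriv_const_mul_field, ih _ (hR i p hp), mul_zero]
      · intro i _
        exact (contDiff_const.mul (path_diff x Y (Dx (a i) p)).contDiff).contDiffAt
  have h1 := Complex.taylorSeries_eq_of_entire' 0 1 (path_diff x Y p)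
  rw [tsum_congr (fun k => by rw [h0 k p hp, mul_zero, zero_mul]), tsum_zero] at h1
  unfold path at h1
  rw [one_smul] at h1
  exact h1.symm

/-- If `p` vanishes at `x exp (t Y)` for all `t`, its derivative vanishes. -/
theorem deriv_vanish (x : Matrix ι ι ℂ) (Y : Matrix ι ι ℂ) (p : MvPolynomial (ι × ι) Qb)
    (h : ∀ t : ℂ, aeval (vc (x * NormedSpace.exp (t • Y))) p = 0) : tg x p Y = 0 := by
  have h1 := hasDeriv_path x Y p 0
  rw [zero_smul, NormedSpace.exp_zero, Matrix.mul_one] at h1
  have h2 : path x Y p = fun _ => 0 := funext h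
  rw [h2] at h1
  exact h1.unique (hasDerivAt_const 0 0)

/-- The polynomial `p` vanishes at all points `C exp Y₁ ⋯ exp Yₙ` with `Yᵢ ∈ L`. -/
def VanishesOnOrbit (C : Matrix ι ι ℂ) (L : Submodule ℂ (Matrix ι ι ℂ))
    (p : MvPolynomial (ι × ι) Qb) : Prop :=
  ∀ l : List (Matrix ι ι ℂ), (∀ Y ∈ l, Y ∈ L) →
    aeval (vc (C * (l.map NormedSpace.exp).prod)) p = 0

/-- The relations of degree at most `δ` are satisfied on the orbit. -/
theorem orbit_of_stable (δ : ℕ) {C : Matrix ι ι ℂ} {L : Submodule ℂ (Matrix ι ι ℂ)}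
    (hL : AlgSpan L) (hR : ∀ a : Matrix ι ι Qb, mC a ∈ L → ∀ p, IsRel δ C p → IsRel δ C (Dx a p))
    {p : MvPolynomial (ι × ι) Qb} (hp : IsRel δ C p) : VanishesOnOrbit C L p := by
  have key : ∀ l : List (Matrix ι ι ℂ), (∀ Y ∈ l, Y ∈ L) → ∀ x ∈ hull δ C,
      x * (l.map NormedSpace.exp).prod ∈ hull δ C := by
    intro l
    induction l with
    | nil =>
      intro _ x hx
      rw [List.map_nil, List.prod_nil, Matrix.mul_one]
      exact hx
    | cons Y l ih =>
      intro hl x hx
      rw [List.map_cons, List.prod_cons, ← Matrix.mul_assoc]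
      refine ih (fun Z hZ => hl Z (List.mem_cons_of_mem _ hZ)) _ ?_
      intro q hq1 hq2
      obtain ⟨n, c, a, ha, hY⟩ := AlgSpan.exists_sum hL (hl Y List.mem_cons_self)
      rw [hY]
      exact vanish_exp (IsRel δ C) x (fun r hr => hx r hr.1 hr.2) c a
        (fun i r hr => hR _ (ha i) r hr) ⟨hq1, hq2⟩
  intro l hl
  exact key l hl C (self_hull δ C) p hp.1 hp.2

/-- If the relations vanish on the orbit, they are stable under the derivations. -/
theorem stable_of_orbit (δ : ℕ) {C : Matrix ι ι ℂ} {L : Submodule ℂ (Matrix ι ι ℂ)}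
    (h : ∀ p, IsRel δ C p → VanishesOnOrbit C L p) (a : Matrix ι ι Qb) (ha : mC a ∈ L)
    (p : MvPolynomial (ι × ι) Qb) (hp : IsRel δ C p) : IsRel δ C (Dx a p) := by
  refine ⟨(deg_Dx a p).trans hp.1, ?_⟩
  rw [← tg_mC]
  refine deriv_vanish C (mC a) p fun t => ?_
  have h1 := h p hp [t • mC a] (by
    intro Y hY
    rw [List.mem_singleton] at hY
    rw [hY]
    exact L.smul_mem t ha)
  rw [List.map_cons, List.map_nil, List.prod_singleton] at h1
  exact h1

end

end Pool.Agent.W537.TD
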