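import Pool.Agent.W537.TD.C

/-!
# The torsor property from the vanishing on the orbit
-/

set_option linter.unusedSectionVars false

namespace Pool.Agent.W537.TD

open Pool.Agent.W537.DB Pool.Agent.W537.TT MvPolynomial

noncomputable section

variable {ι : Type} [Fintype ι] [DecidableEq ι]

theorem deg_map {N : Type} (p : MvPolynomial N Qb) :
    (map (algebraMap Qb ℂ) p).totalDegree ≤ p.totalDegree :=
  Finset.sup_mono (support_map_subset _ _)

/-- The iterated derivative. -/
def itD (l : List (Matrix ι ι Qb)) (p : MvPolynomial (ι × ι) Qb) : MvPolynomial (ι × ι) Qb :=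
  l.foldr (fun a q => Dx a q) p

theorem itD_cons (a : Matrix ι ι Qb) (l : List (Matrix ι ι Qb)) (p : MvPolynomial (ι × ι) Qb) :
    itD (a :: l) p = Dx a (itD l p) := rfl

/-- The derivation of the ring of complex polynomials. -/
def DxC (a : Matrix ι ι Qb) :
    Derivation ℂ (MvPolynomial (ι × ι) ℂ) (MvPolynomial (ι × ι) ℂ) :=
  mkDerivation ℂ (vc (gm ℂ * (mC a).map MvPolynomial.C))

/-- The iterated derivative of a complex polynomial. -/
def itDC (l : List (Matrix ι ι Qb)) (p : MvPolynomial (ι × ι) ℂ) : MvPolynomial (ι × ι) ℂ :=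
  l.foldr (fun a q => DxC a q) p

theorem DxC_X (a : Matrix ι ι Qb) (n : ι × ι) :
    DxC a (X n) = ∑ k, C (mC a k n.2) * X (n.1, k) := by
  unfold DxC
  rw [mkDerivation_X]
  change (gm ℂ * (mC a).map MvPolynomial.C : Matrix ι ι (MvPolynomial (ι × ι) ℂ)) n.1 n.2 = _
  rw [Matrix.mul_apply]
  refine Finset.sum_congr rfl fun k _ => ?_
  rw [Matrix.map_apply (f := MvPolynomial.C), mul_comm]
  rfl

theorem Dx_X (a : Matrix ι ι Qb) (n : ι × ι) :
    Dx a (X n) = ∑ k, C (a k n.2) * X (n.1, k) := by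
  unfold Dx
  rw [mkDerivation_X]
  change (gm Qb * a.map MvPolynomial.C : Matrix ι ι (MvPolynomial (ι × ι) Qb)) n.1 n.2 = _
  rw [Matrix.mul_apply]
  refine Finset.sum_congr rfl fun k _ => ?_
  rw [Matrix.map_apply, mul_comm]
  rfl

theorem DxC_map (a : Matrix ι ι Qb) (p : MvPolynomial (ι × ι) Qb) :
    DxC a (map (algebraMap Qb ℂ) p) = map (algebraMap Qb ℂ) (Dx a p) := by
  induction p using MvPolynomial.induction_on with
  | C c =>
    have h1 : Dx a (C c) = 0 := (Dx a).map_algebraMap c
    have h2 : DxC a (C (algebraMap Qb ℂ c)) = 0 := (DxC a).map_algebraMap _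
    rw [map_C, h1, h2, map_zero]
  | add p q hp hq => rw [map_add, map_add, map_add, map_add, hp, hq]
  | mul_X p i hp =>
    rw [map_mul, Derivation.leibniz, Derivation.leibniz, hp, map_X, DxC_X, Dx_X, map_add]
    simp only [smul_eq_mul, map_mul, map_X, map_sum, map_C]
    rfl

theorem itDC_map (l : List (Matrix ι ι Qb)) (p : MvPolynomial (ι × ι) Qb) :
    itDC l (map (algebraMap Qb ℂ) p) = map (algebraMap Qb ℂ) (itD l p) := by
  induction l with
  | nil => rfl
  | cons a l ih =>
    change DxC a (itDC l _) = map _ (Dx a (itD l p))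
    rw [ih, DxC_map]

/-- The substitution `p (h X)`. -/
def lh (h : Matrix ι ι ℂ) : MvPolynomial (ι × ι) ℂ →ₐ[ℂ] MvPolynomial (ι × ι) ℂ :=
  aeval (vc (h.map MvPolynomial.C * gm ℂ))

theorem lh_X (h : Matrix ι ι ℂ) (n : ι × ι) :
    lh h (X n) = ∑ k, C (h n.1 k) * X (k, n.2) := by
  unfold lh
  rw [aeval_X]
  change (h.map MvPolynomial.C * gm ℂ : Matrix ι ι (MvPolynomial (ι × ι) ℂ)) n.1 n.2 = _
  rw [Matrix.mul_apply]
  rfl

theorem lh_C (h : Matrix ι ι ℂ) (c : ℂ) : lh h (C c) = C c := by
  unfold lh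
  rw [algHom_C]
  rfl

theorem eval_lh (h z : Matrix ι ι ℂ) (f : MvPolynomial (ι × ι) ℂ) :
    eval (vc z) (lh h f) = eval (vc (h * z)) f := by
  induction f using MvPolynomial.induction_on with
  | C c => rw [lh_C, eval_C, eval_C]
  | add p q hp hq => rw [map_add, map_add, map_add, hp, hq]
  | mul_X p i hp =>
    rw [map_mul, map_mul, map_mul, hp, eval_X, lh_X, map_sum]
    congr 1
    change _ = (h * z) i.1 i.2
    rw [Matrix.mul_apply]
    refine Finset.sum_congr rfl fun k _ => ?_
    rw [map_mul, eval_C, eval_X]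
    rfl

theorem DxC_lh (a : Matrix ι ι Qb) (h : Matrix ι ι ℂ) (f : MvPolynomial (ι × ι) ℂ) :
    DxC a (lh h f) = lh h (DxC a f) := by
  induction f using MvPolynomial.induction_on with
  | C c =>
    have h2 : DxC a (C c) = 0 := (DxC a).map_algebraMap _
    rw [lh_C, h2, map_zero]
  | add p q hp hq => rw [map_add, map_add, map_add, map_add, hp, hq]
  | mul_X p i hp =>
    rw [map_mul, Derivation.leibniz, Derivation.leibniz, hp, map_add]
    simp only [smul_eq_mul, map_mul]
    congr 2
    rw [lh_X, map_sum, DxC_X, map_sum]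
    have e1 : ∀ k, DxC a (C (h i.1 k) * X (k, i.2)) =
        ∑ j, C (h i.1 k) * (C (mC a j i.2) * X (k, j)) := by
      intro k
      rw [← smul_eq_C_mul, Derivation.map_smul, DxC_X, smul_eq_C_mul, Finset.mul_sum]
    have e2 : ∀ j, lh h (C (mC a j i.2) * X (i.1, j)) =
        ∑ k, C (h i.1 k) * (C (mC a j i.2) * X (k, j)) := by
      intro j
      rw [map_mul, lh_C, lh_X, Finset.mul_sum]
      refine Finset.sum_congr rfl fun k _ => ?_
      ring
    rw [Finset.sum_congr rfl fun k _ => e1 k, Finset.sum_congr rfl fun j _ => e2 j,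
      Finset.sum_comm]

theorem itDC_lh (l : List (Matrix ι ι Qb)) (h : Matrix ι ι ℂ) (f : MvPolynomial (ι × ι) ℂ) :
    itDC l (lh h f) = lh h (itDC l f) := by
  induction l with
  | nil => rfl
  | cons a l ih =>
    change DxC a (itDC l _) = lh h (DxC a (itDC l f))
    rw [ih, DxC_lh]

theorem itDC_sum (l : List (Matrix ι ι Qb)) {J : Type} (s : Finset J) (c : J → ℂ)
    (g : J → MvPolynomial (ι × ι) ℂ) :
    itDC l (∑ j ∈ s, c j • g j) = ∑ j ∈ s, c j • itDC l (g j) := by
  induction l with
  | nil => rfl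
  | cons a l ih =>
    change DxC a (itDC l _) = ∑ j ∈ s, c j • DxC a (itDC l (g j))
    rw [ih, map_sum]
    refine Finset.sum_congr rfl fun j _ => ?_
    rw [Derivation.map_smul]

variable {δ : ℕ} {C : Matrix ι ι ℂ} {L : Submodule ℂ (Matrix ι ι ℂ)}

/-- A complex polynomial of degree at most `δ` with vanishing iterated derivatives at `C` vanishes on
the hull. -/
theorem vanish_of_itD (hC : IsUnit C) (hL : AlgSpan L) (hlog : logSpace C ≤ L)
    (f : MvPolynomial (ι × ι) ℂ) (hfδ : f.totalDegree ≤ δ)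
    (hf : ∀ l : List (Matrix ι ι Qb), (∀ a ∈ l, mC a ∈ L) → eval (vc C) (itDC l f) = 0)
    {z : Matrix ι ι ℂ} (hz : z ∈ hull δ C) : eval (vc z) f = 0 := by
  classical
  let Λ : Type := {α // α ∈ f.support}
  let v : List (Matrix ι ι Qb) → Λ → ℂ := fun l α =>
    aeval (vc C) (itD l (monomial (α : (ι × ι) →₀ ℕ) (1 : Qb)))
  let W : Submodule ℂ (Λ → ℂ) :=
    { carrier := {b | ∀ l : List (Matrix ι ι Qb), (∀ a ∈ l, mC a ∈ L) → ∑ α, b α * v l α = 0}
      zero_mem' := fun l _ => by simp
      add_mem' := by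
        intro b b' hb hb' l hl
        simp only [Pi.add_apply, add_mul, Finset.sum_add_distrib]
        rw [hb l hl, hb' l hl, add_zero]
      smul_mem' := by
        intro c b hb l hl
        simp only [Pi.smul_apply, smul_eq_mul, mul_assoc, ← Finset.mul_sum]
        rw [hb l hl, mul_zero] }
  have hWD : DStable W := by
    intro D b hb l hl
    change ∑ α, D (b α) * v l α = 0
    obtain ⟨n, c, a, ha, hY⟩ := AlgSpan.exists_sum hL (hlog ⟨D, rfl⟩)
    have h1 : ∀ α, D (v l α) = ∑ j, c j * v (a j :: l) α := by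
      intro α
      rw [der_value hC, hY, map_sum]
      refine Finset.sum_congr rfl fun j _ => ?_
      rw [map_smul, tg_mC, smul_eq_mul]
      rfl
    have h2 := congrArg D (hb l hl)
    rw [map_zero, map_sum] at h2
    have h3 : ∀ α, D (b α * v l α) = D (b α) * v l α + ∑ j, c j * (b α * v (a j :: l) α) := by
      intro α
      rw [Derivation.leibniz, h1, smul_eq_mul, smul_eq_mul, Finset.mul_sum, add_comm, mul_comm]
      congr 1
      refine Finset.sum_congr rfl fun j _ => ?_
      ring
    rw [Finset.sum_congr rfl fun α _ => h3 α, Finset.sum_add_distrib, Finset.sum_comm] at h2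
    have h4 : ∀ j, ∑ α, c j * (b α * v (a j :: l) α) = 0 := by
      intro j
      rw [← Finset.mul_sum, hb (a j :: l) (by
        intro x hx
        rcases List.mem_cons.1 hx with rfl | hx
        · exact ha j
        · exact hl x hx), mul_zero]
    rw [Finset.sum_eq_zero fun j _ => h4 j, add_zero] at h2
    exact h2
  -- the values of the iterated derivatives
  have hmon : ∀ l, itDC l f = ∑ α ∈ f.support, coeff α f •
      map (algebraMap Qb ℂ) (itD l (monomial α (1 : Qb))) := by
    intro l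
    have e1 : f = ∑ α ∈ f.support, coeff α f • map (algebraMap Qb ℂ) (monomial α (1 : Qb)) := by
      conv_lhs => rw [← support_sum_monomial_coeff f]
      refine Finset.sum_congr rfl fun α _ => ?_
      rw [map_monomial, map_one, smul_monomial, smul_eq_mul, mul_one]
    conv_lhs => rw [e1]
    rw [itDC_sum]
    refine Finset.sum_congr rfl fun α _ => ?_
    rw [itDC_map]
  have hbW : (fun α : Λ => coeff (α : (ι × ι) →₀ ℕ) f) ∈ W := by
    intro l hl
    have h1 := hf l hl
    rw [hmon, map_sum] at h1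
    rw [← Finset.sum_attach] at h1
    rw [← h1]
    refine Finset.sum_congr rfl fun α _ => ?_
    rw [smul_eval, eval_map]
    rfl
  have h1 := dstable_span _ W rfl hWD hbW
  -- algebraic elements of `W` are relations
  have key : ∀ b ∈ Submodule.span ℂ {w | w ∈ W ∧ ∀ i, IsAlgebraic ℚ (w i)},
      ∑ α : Λ, b α * eval (vc z) (monomial (α : (ι × ι) →₀ ℕ) (1 : ℂ)) = 0 := by
    intro b hb
    induction hb using Submodule.span_induction with
    | mem w hw =>
      let p : MvPolynomial (ι × ι) Qb :=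
        ∑ α : Λ, monomial (α : (ι × ι) →₀ ℕ) (⟨w α, mem_algebraicClosure_iff.2 (hw.2 α)⟩ : Qb)
      have hpδ : p.totalDegree ≤ δ := by
        refine deg_sum _ _ fun α _ => ?_
        exact (totalDegree_monomial_le _ _).trans ((le_totalDegree α.2).trans hfδ)
      have hval : ∀ y : Matrix ι ι ℂ, aeval (vc y) p =
          ∑ α : Λ, w α * eval (vc y) (monomial (α : (ι × ι) →₀ ℕ) (1 : ℂ)) := by
        intro y
        rw [map_sum]
        refine Finset.sum_congr rfl fun α _ => ?_
        rw [aeval_monomial, eval_monomial, one_mul]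
        rfl
      have hpC : aeval (vc C) p = 0 := by
        rw [hval]
        have h2 := hw.1 [] (fun a ha => absurd ha List.not_mem_nil)
        rw [← h2]
        refine Finset.sum_congr rfl fun α _ => ?_
        congr 1
        change _ = aeval (vc C) (monomial (α : (ι × ι) →₀ ℕ) (1 : Qb))
        rw [aeval_monomial, eval_monomial, map_one]
      rw [← hval]
      exact hz p hpδ hpC
    | zero => simp
    | add u w _ _ hu hw =>
      simp only [Pi.add_apply, add_mul, Finset.sum_add_distrib]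
      rw [hu, hw, add_zero]
    | smul c u _ hu =>
      simp only [Pi.smul_apply, smul_eq_mul, mul_assoc, ← Finset.mul_sum]
      rw [hu, mul_zero]
  have h2 := key _ h1
  conv_lhs => rw [← support_sum_monomial_coeff f]
  rw [map_sum, ← Finset.sum_attach, ← h2]
  refine Finset.sum_congr rfl fun α _ => ?_
  rw [eval_monomial, eval_monomial, one_mul]

/-- First step: `x C⁻¹ z`. -/
theorem mul_hull (hC : IsUnit C) (hL : AlgSpan L) (hlog : logSpace C ≤ L)
    (hR : ∀ a : Matrix ι ι Qb, mC a ∈ L → ∀ p, IsRel δ C p → IsRel δ C (Dx a p))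
    {x z : Matrix ι ι ℂ} (hx : x ∈ hull δ C) (hz : z ∈ hull δ C) : x * C⁻¹ * z ∈ hull δ C := by
  intro p hpδ hp
  have hit : ∀ l : List (Matrix ι ι Qb), (∀ a ∈ l, mC a ∈ L) → IsRel δ C (itD l p) := by
    intro l
    induction l with
    | nil => exact fun _ => ⟨hpδ, hp⟩
    | cons a l ih =>
      intro hl
      rw [itD_cons]
      exact hR a (hl a List.mem_cons_self) _ (ih fun b hb => hl b (List.mem_cons_of_mem _ hb))
  set h : Matrix ι ι ℂ := x * C⁻¹ with hh
  have hev : ∀ (y : Matrix ι ι ℂ) (q : MvPolynomial (ι × ι) Qb),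
      eval (vc y) (lh h (map (algebraMap Qb ℂ) q)) = aeval (vc (h * y)) q := by
    intro y q
    rw [eval_lh, eval_map]
    rfl
  have h1 := vanish_of_itD (δ := δ) hC hL hlog (lh h (map (algebraMap Qb ℂ) p)) ?_ ?_ hz
  · rw [hev] at h1
    exact h1
  · refine (deg_subst _ (deg_left h) _).trans ?_
    exact (deg_map _).trans hpδ
  · intro l hl
    rw [itDC_lh, itDC_map, hev, hh, Matrix.mul_assoc, inv_mul' hC, Matrix.mul_one]
    exact hx _ (hit l hl).1 (hit l hl).2

/-- The complex polynomials of degree at most `δ` which vanish on the hull. -/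
def van (δ : ℕ) (C : Matrix ι ι ℂ) : Submodule ℂ (MvPolynomial (ι × ι) ℂ) where
  carrier := {f | f.totalDegree ≤ δ ∧ ∀ z ∈ hull δ C, eval (vc z) f = 0}
  zero_mem' := ⟨by rw [totalDegree_zero]; exact Nat.zero_le _, fun _ _ => map_zero _⟩
  add_mem' := fun {f g} hf hg => ⟨(totalDegree_add f g).trans (max_le hf.1 hg.1), fun z hz => by
    rw [map_add, hf.2 z hz, hg.2 z hz, add_zero]⟩
  smul_mem' := fun c f hf => ⟨(totalDegree_smul_le c f).trans hf.1, fun z hz => by
    rw [smul_eval, hf.2 z hz, mul_zero]⟩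

theorem van_fin (δ : ℕ) (C : Matrix ι ι ℂ) : Module.Finite ℂ (van δ C) := by
  have hfin : {α : (ι × ι) →₀ ℕ | (α.sum fun _ e => e) ≤ δ}.Finite := by
    refine (Finsupp.finite_of_degree_le (σ := ι × ι) δ).subset fun α hα => ?_
    exact hα
  let B : Submodule ℂ (MvPolynomial (ι × ι) ℂ) :=
    Submodule.span ℂ ((fun α => monomial α (1 : ℂ)) '' {α | (α.sum fun _ e => e) ≤ δ})
  have hB : Module.Finite ℂ B := Module.Finite.span_of_finite ℂ (hfin.image _)
  have hle : van δ C ≤ B := by
    intro f hf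
    rw [← support_sum_monomial_coeff f]
    refine B.sum_mem fun α hα => ?_
    have h1 : monomial α (coeff α f) = coeff α f • monomial α (1 : ℂ) := by
      rw [smul_monomial, smul_eq_mul, mul_one]
    rw [h1]
    exact B.smul_mem _ (Submodule.subset_span ⟨α, (le_totalDegree hα).trans hf.1, rfl⟩)
  exact Submodule.finiteDimensional_of_le hle

/-- The torsor property. -/
theorem torsor_of_stable (hC : IsUnit C) (hL : AlgSpan L) (hlog : logSpace C ≤ L)
    (hR : ∀ a : Matrix ι ι Qb, mC a ∈ L → ∀ p, IsRel δ C p → IsRel δ C (Dx a p)) :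
    IsTorsorUpTo δ C := by
  intro x y z _ hyu _ hx hy hz
  have hfin := van_fin δ C
  set h : Matrix ι ι ℂ := y * C⁻¹ with hh
  have hmap : ∀ f ∈ van δ C, lh h f ∈ van δ C := by
    intro f hf
    refine ⟨(deg_subst _ (deg_left h) f).trans hf.1, fun w hw => ?_⟩
    rw [eval_lh]
    exact hf.2 _ (mul_hull hC hL hlog hR hy hw)
  let F : van δ C →ₗ[ℂ] van δ C := (lh h).toLinearMap.restrict hmap
  have hCi : IsUnit C⁻¹ := (Matrix.isUnit_nonsing_inv_iff).2 hC
  have hhu : IsUnit h := hyu.mul hCi
  have hinj : Function.Injective F := by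
    rw [← LinearMap.ker_eq_bot, LinearMap.ker_eq_bot']
    rintro ⟨f, hf⟩ h0
    have h1 : lh h f = 0 := congrArg Subtype.val h0
    apply Subtype.ext
    change f = 0
    apply MvPolynomial.funext
    intro w
    let M : Matrix ι ι ℂ := Matrix.of fun i j => w (i, j)
    have h2 : eval (vc (h⁻¹ * M)) (lh h f) = eval (vc M) f := by
      rw [eval_lh, ← Matrix.mul_assoc, mul_inv' hhu, Matrix.one_mul]
    rw [h1, map_zero] at h2
    rw [map_zero]
    exact h2.symm
  have hsurj : Function.Surjective F := LinearMap.injective_iff_surjective.1 hinj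
  -- `C y⁻¹ z`
  have hcy : C * y⁻¹ * z ∈ hull δ C := by
    intro p hpδ hp
    have hpv : map (algebraMap Qb ℂ) p ∈ van δ C := by
      refine ⟨(deg_map _).trans hpδ, fun w hw => ?_⟩
      rw [eval_map]
      exact hw p hpδ hp
    obtain ⟨⟨g, hg⟩, hgF⟩ := hsurj ⟨_, hpv⟩
    have h1 : lh h g = map (algebraMap Qb ℂ) p := congrArg Subtype.val hgF
    have h2 : eval (vc (C * y⁻¹ * z)) (lh h g) = eval (vc z) g := by
      rw [eval_lh, hh]
      congr 2
      rw [Matrix.mul_assoc y, ← Matrix.mul_assoc C⁻¹, ← Matrix.mul_assoc C⁻¹, inv_mul' hC,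
        Matrix.one_mul, ← Matrix.mul_assoc, mul_inv' hyu, Matrix.one_mul]
    rw [h1, hg.2 z hz, eval_map] at h2
    exact h2
  have h3 := mul_hull hC hL hlog hR hx hcy
  have h4 : x * C⁻¹ * (C * y⁻¹ * z) = x * y⁻¹ * z := by
    rw [Matrix.mul_assoc x, ← Matrix.mul_assoc C⁻¹, ← Matrix.mul_assoc C⁻¹, inv_mul' hC,
      Matrix.one_mul, ← Matrix.mul_assoc]
  rw [h4] at h3
  exact h3

/-- If the relations of degree at most `δ` vanish on the orbit, the hull is a torsor. -/
theorem torsor_of_orbit (hC : IsUnit C) (hL : AlgSpan L) (hlog : logSpace C ≤ L)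
    (h : ∀ p, IsRel δ C p → VanishesOnOrbit C L p) : IsTorsorUpTo δ C :=
  torsor_of_stable hC hL hlog fun a ha p hp => stable_of_orbit δ h a ha p hp

/-- If the hull is a torsor with a tangent space which contains `L`, the relations vanish on the
orbit. -/
theorem orbit_of_torsor (hL : AlgSpan L) (hLt : L ≤ tang δ C)
    (p : MvPolynomial (ι × ι) Qb) (hp : IsRel δ C p) : VanishesOnOrbit C L p :=
  orbit_of_stable δ hL (fun _ ha _ hq => rel_stable δ (hLt ha) hq) hp

end

end Pool.Agent.W537.TD
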