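import Pool.Agent.W537.TD.D
import Pool.Agent.W537.TT.Tate

/-!
# The relations of bounded degree between the periods of a K3 surface
-/

set_option linter.unusedSectionVars false

namespace Pool.Agent.W537.TD

open Pool.Agent.W537.DB Pool.Agent.W537.KT Pool.Agent.W537.TT Matrix

noncomputable section

variable {ι : Type} [Fintype ι] [DecidableEq ι]

/-- A space defined over the algebraic numbers is stable under derivations. -/
theorem dst_of_algSpan {L : Submodule ℂ (Matrix ι ι ℂ)} (hL : AlgSpan L) (D : Derivation ℤ ℂ ℂ)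
    {Y : Matrix ι ι ℂ} (hY : Y ∈ L) : Y.map D ∈ L := by
  obtain ⟨n, c, a, ha, rfl⟩ := AlgSpan.exists_sum hL hY
  have h1 : (∑ i, c i • mC (a i)).map D = ∑ i, D (c i) • mC (a i) := by
    ext r s
    rw [Matrix.map_apply, Matrix.sum_apply, Matrix.sum_apply, map_sum]
    refine Finset.sum_congr rfl fun i _ => ?_
    have h2 : D (mC (a i) r s) = 0 := der_Qb D (a i r s)
    rw [Matrix.smul_apply, Matrix.smul_apply, smul_eq_mul, smul_eq_mul, Derivation.leibniz,
      h2, smul_zero, zero_add, smul_eq_mul, mul_comm]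
  rw [h1]
  exact L.sum_mem fun i _ => L.smul_mem _ (ha i)

/-- A space stable under derivations is defined over the algebraic numbers. -/
theorem algSpan_of_dst {L : Submodule ℂ (Matrix ι ι ℂ)}
    (h : ∀ (D : Derivation ℤ ℂ ℂ), ∀ Y ∈ L, Y.map D ∈ L) : AlgSpan L := by
  let V : Matrix ι ι ℂ →ₗ[ℂ] (ι × ι → ℂ) :=
    { toFun := fun y => vc y
      map_add' := fun _ _ => rfl
      map_smul' := fun _ _ => rfl }
  let U : (ι × ι → ℂ) →ₗ[ℂ] Matrix ι ι ℂ :=
    { toFun := fun w => Matrix.of fun i j => w (i, j)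
      map_add' := fun _ _ => rfl
      map_smul' := fun _ _ => rfl }
  have hst : DStable (L.map V) := by
    rintro D _ ⟨Y, hY, rfl⟩
    exact ⟨Y.map D, h D Y hY, rfl⟩
  intro y hy
  have h1 := dstable_span _ (L.map V) rfl hst ⟨y, hy, rfl⟩
  have h2 : U (V y) ∈ (Submodule.span ℂ
      {w : ι × ι → ℂ | w ∈ L.map V ∧ ∀ i, IsAlgebraic ℚ (w i)}).map U := ⟨_, h1, rfl⟩
  rw [Submodule.map_span] at h2
  refine Submodule.span_mono ?_ h2
  rintro _ ⟨_, ⟨⟨Y, hY, rfl⟩, hw⟩, rfl⟩
  exact ⟨hY, fun i j => mem_algebraicClosure_iff.2 (hw (i, j))⟩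

variable {κ : Type} [Fintype κ] [DecidableEq κ]
variable {T : K3Motive ι} {P : Matrix ι ι ℚ} {m : ℕ}

/-- The complex Lie algebra of the Mumford-Tate group of the sum of `T(-a)` and of the Tate motives
`1(-e j)`: the block matrices with the blocks `x + a u` and `e j u`, for `x` in the Lie algebra of the
Mumford-Tate group of `T` and `u` a number. -/
def mtLie (T : K3Motive ι) (a : ℤ) (e : κ → ℤ) : Submodule ℂ (Matrix (ι ⊕ κ) (ι ⊕ κ) ℂ) :=
  ((mumfordTate T).prod ⊤).map (tw κ a e)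

theorem mem_mtLie (T : K3Motive ι) (a : ℤ) (e : κ → ℤ) (Y : Matrix (ι ⊕ κ) (ι ⊕ κ) ℂ) :
    Y ∈ mtLie T a e ↔ ∃ x ∈ mumfordTate T, ∃ u : ℂ, Y = tw κ a e (x, u) := by
  constructor
  · rintro ⟨⟨x, u⟩, hx, rfl⟩
    exact ⟨x, hx.1, u, rfl⟩
  · rintro ⟨x, hx, u, rfl⟩
    exact ⟨(x, u), ⟨hx, trivial⟩, rfl⟩

theorem tw_map (a : ℤ) (e : κ → ℤ) (D : Derivation ℤ ℂ ℂ) (x : Matrix ι ι ℂ) (u : ℂ) :
    (tw κ a e (x, u)).map D = tw κ a e (x.map D, D u) := by
  have hint : ∀ (n : ℤ) (w : ℂ), D ((n : ℂ) * w) = (n : ℂ) * D w := by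
    intro n w
    rw [Derivation.leibniz, Derivation.map_intCast, smul_zero, add_zero, smul_eq_mul]
  rw [tw_apply, tw_apply]
  ext i j
  rcases i with i | i <;> rcases j with j | j
  · simp only [Matrix.map_apply, Matrix.fromBlocks_apply₁₁, Matrix.add_apply, Matrix.smul_apply,
      smul_eq_mul, Matrix.one_apply]
    split_ifs
    · rw [mul_one, mul_one, map_add, hint]
    · rw [mul_zero, mul_zero, add_zero, add_zero]
  · simp
  · simp
  · simp only [Matrix.map_apply, Matrix.fromBlocks_apply₂₂, Matrix.diagonal_apply]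
    split_ifs
    · rw [hint]
    · exact map_zero D

theorem mtLie_algSpan (hZ : T.Zarhin) (a : ℤ) (e : κ → ℤ) : AlgSpan (mtLie T a e) := by
  refine algSpan_of_dst fun D Y hY => ?_
  obtain ⟨x, hx, u, rfl⟩ := (mem_mtLie T a e Y).1 hY
  rw [tw_map]
  refine (mem_mtLie T a e _).2 ⟨_, ?_, _, rfl⟩
  rw [mt_eq hZ] at hx ⊢
  exact dst_of_algSpan (hd_algSpan hZ) D hx

theorem log_le_mtLie (hD : T.HodgeDeRham) (hZ : T.Zarhin) (a : ℤ) (e : κ → ℤ) :
    logSpace (twisted T a e) ≤ mtLie T a e := by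
  intro y hy
  obtain ⟨D, rfl⟩ := (mem_log_twisted T a e y).1 hy
  refine (mem_mtLie T a e _).2 ⟨_, ?_, _, rfl⟩
  rw [mt_eq hZ]
  exact log_le hD ⟨D, rfl⟩

/-- The main step: if the hull is a torsor, its tangent space contains the Lie algebra of the
Mumford-Tate group. -/
theorem mtLie_le_tang (hD : T.HodgeDeRham) (hZ : T.Zarhin)
    (hW : ∀ j, 3 ≤ j → j ≠ 5 → SphereProperty j) (hKS : T.KugaSatake Qb) (hSS : T.Semisimple Qb)
    (hP : T.RealMultiplication P) (hm : Fintype.card ι = m * (minpoly ℚ P).natDegree)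
    (h5 : m ≠ 5) (a : ℤ) (e : κ → ℤ) (δ : ℕ) (hT : IsTorsorUpTo δ (twisted T a e)) :
    mtLie T a e ≤ tang δ (twisted T a e) := by
  obtain ⟨d⟩ := Pool.Agent.W249.KT.t_DEC ι T.Q P m T.Q_symm T.Q_det hP.2.2.1 hP.2.2.2 hm
  have h3 : 3 ≤ m := three_le hZ hP d
  have hu := twisted_unit T a e
  set β : Matrix (ι ⊕ κ) (ι ⊕ κ) ℂ := twisted T a e with hβ
  have hlt : ∀ D, tw κ a e (T.X D, lam D) ∈ tang δ β := fun D =>
    log_le_tang δ hu ((mem_log_twisted T a e _).2 ⟨D, rfl⟩)
  have hGa : AlgSpan (T.G Qb) := fun x hx => T.G_span hx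
  let g : Submodule ℂ (Matrix ι ι ℂ) :=
    { carrier := {x | x ∈ T.G Qb ∧ ∃ u, tw κ a e (x, u) ∈ tang δ β}
      zero_mem' := ⟨Submodule.zero_mem _, 0, by
        have h6 : tw κ a e ((0 : Matrix ι ι ℂ), (0 : ℂ)) = 0 := map_zero (tw κ a e)
        rw [h6]
        exact Submodule.zero_mem _⟩
      add_mem' := by
        rintro x y ⟨hx, u, hxu⟩ ⟨hy, v, hyv⟩
        refine ⟨Submodule.add_mem _ hx hy, u + v, ?_⟩
        have h6 : tw κ a e (x + y, u + v) = tw κ a e (x, u) + tw κ a e (y, v) := by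
          rw [← map_add, Prod.mk_add_mk]
        rw [h6]
        exact Submodule.add_mem _ hxu hyv
      smul_mem' := by
        rintro c x ⟨hx, u, hxu⟩
        refine ⟨Submodule.smul_mem _ c hx, c * u, ?_⟩
        have h6 : tw κ a e (c • x, c * u) = c • tw κ a e (x, u) := by
          rw [← map_smul, Prod.smul_mk, smul_eq_mul]
        rw [h6]
        exact Submodule.smul_mem _ c hxu }
  have hgen : T.Gen Qb g :=
    { lie := by
        rintro x ⟨hx, u, hxu⟩ y ⟨hy, v, hyv⟩
        refine ⟨(T.G_gen Qb_isAlg).lie x hx y hy, 0, ?_⟩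
        rw [← tw_bracket a e x y u v]
        exact tang_lie δ hu hT hxu hyv
      span := by
        refine algSpan_of_dst fun D x hx => ?_
        obtain ⟨hxG, u, hxu⟩ := hx
        refine ⟨dst_of_algSpan hGa D hxG, D u, ?_⟩
        rw [← tw_map]
        exact dst_of_algSpan (tang_algSpan δ hu hT) D hxu
      X_mem := fun D => ⟨T.X_mem (K := Qb) Qb_isAlg D, lam D, hlt D⟩
      le := fun x hx => hx.1 }
  have h1 : T.hd ≤ g := hgen.hd_le Qb_isAlg hD hKS hSS hZ hP d (by omega) (hW m h3 h5)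
  -- the part without twist
  let V : Submodule ℂ (Matrix ι ι ℂ) :=
    (tang δ β).comap ((tw κ a e).comp (LinearMap.inl ℂ _ _))
  have hV : ∀ x ∈ T.hd, x ∈ V := by
    intro x hx
    refine hd_perfect hP d (by omega) V (fun x hx y hy => ?_) hx
    obtain ⟨-, u, hxu⟩ := h1 hx
    obtain ⟨-, v, hyv⟩ := h1 hy
    have h4 := tang_lie δ hu hT hxu hyv
    rw [tw_bracket] at h4
    exact h4
  intro Y hY
  obtain ⟨x, hx, u, rfl⟩ := (mem_mtLie T a e Y).1 hY
  rw [mt_eq hZ] at hx
  obtain ⟨D, hD0⟩ := exists_lam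
  have hXd : T.X D ∈ T.hd := log_le hD ⟨D, rfl⟩
  have h5 : tw κ a e (T.X D, 0) ∈ tang δ β := hV _ hXd
  have h6 : tw κ a e (x, 0) ∈ tang δ β := hV _ hx
  have h7 : tw κ a e (x, u) = tw κ a e (x, 0) +
      (u / lam D) • (tw κ a e (T.X D, lam D) - tw κ a e (T.X D, 0)) := by
    rw [← map_sub, ← map_smul, ← map_add]
    congr 1
    rw [Prod.mk_sub_mk, sub_self, sub_zero, Prod.smul_mk, smul_zero, Prod.mk_add_mk, add_zero,
      zero_add, smul_eq_mul, div_mul_cancel₀ _ hD0]
  rw [h7]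
  exact Submodule.add_mem _ h6 (Submodule.smul_mem _ _ (Submodule.sub_mem _ (hlt D) h5))

/-- There are no relations of degree at most `δ` with algebraic coefficients between the entries of
`β`, except for those which hold on the orbit of the Mumford-Tate group. -/
def NoRelations (δ : ℕ) (β : Matrix ι ι ℂ) (L : Submodule ℂ (Matrix ι ι ℂ)) : Prop :=
  ∀ p : MvPolynomial (ι × ι) Qb, p.totalDegree ≤ δ → MvPolynomial.aeval (vc β) p = 0 →
    VanishesOnOrbit β L p

/-- **Theorem.** The period conjecture in degrees at most `δ`. -/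
theorem degree_iff (hD : T.HodgeDeRham) (hZ : T.Zarhin)
    (hW : ∀ j, 3 ≤ j → j ≠ 5 → SphereProperty j) (hKS : T.KugaSatake Qb) (hSS : T.Semisimple Qb)
    (hP : T.RealMultiplication P) (hm : Fintype.card ι = m * (minpoly ℚ P).natDegree)
    (h5 : m ≠ 5) (a : ℤ) (e : κ → ℤ) (δ : ℕ) :
    NoRelations δ (twisted T a e) (mtLie T a e) ↔ IsTorsorUpTo δ (twisted T a e) := by
  constructor
  · intro h
    exact torsor_of_orbit (twisted_unit T a e) (mtLie_algSpan hZ a e) (log_le_mtLie hD hZ a e)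
      fun p hp => h p hp.1 hp.2
  · intro h p hp1 hp2
    exact orbit_of_torsor (mtLie_algSpan hZ a e)
      (mtLie_le_tang hD hZ hW hKS hSS hP hm h5 a e δ h) p ⟨hp1, hp2⟩

/-- The torsor properties in all degrees give the torsor property of the closure. -/
theorem torsor_of_all {C : Matrix ι ι ℂ} (h : ∀ δ, IsTorsorUpTo δ C) : IsTorsor C := by
  intro x y z hx hy hz hxc hyc hzc p hp
  exact h p.totalDegree x y z hx hy hz (fun q _ hq => hxc q hq) (fun q _ hq => hyc q hq)
    (fun q _ hq => hzc q hq) p le_rfl hp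

/-- **Theorem.** Grothendieck's conjecture holds if and only if it holds in all degrees. -/
theorem all_degrees_iff (hD : T.HodgeDeRham) (hZ : T.Zarhin)
    (hW : ∀ j, 3 ≤ j → j ≠ 5 → SphereProperty j) (hKS : T.KugaSatake Qb) (hSS : T.Semisimple Qb)
    (hP : T.RealMultiplication P) (hm : Fintype.card ι = m * (minpoly ℚ P).natDegree)
    (h5 : m ≠ 5) (a : ℤ) (e : κ → ℤ) (hae : a ≠ 0 ∨ ∃ j, e j ≠ 0) :
    Algebra.trdeg ℚ (fld (vc (twisted T a e))) =
        ((Module.finrank ℂ (mumfordTate T) + 1 : ℕ) : Cardinal) ↔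
      ∀ δ, NoRelations δ (twisted T a e) (mtLie T a e) := by
  have h1 := tate_iff hD hZ hW hP hm h5 a e hae
  have hu := twisted_unit T a e
  have hι := card_ne T
  constructor
  · intro h δ
    -- the logarithmic derivatives are the whole Lie algebra
    have hfin : Module.finrank ℂ (mtLie T a e) = Module.finrank ℂ (mumfordTate T) + 1 := by
      let full : Submodule ℂ (Matrix ι ι ℂ × ℂ) := (mumfordTate T).prod ⊤
      let φ : full →ₗ[ℂ] Matrix (ι ⊕ κ) (ι ⊕ κ) ℂ := (tw κ a e).comp full.subtype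
      have hφ : Function.Injective φ := by
        rintro ⟨⟨x, u⟩, hx⟩ ⟨⟨x', u'⟩, hx'⟩ h
        have e1 : x ∈ T.hd := by
          rw [← mt_eq hZ]
          exact hx.1
        have e2 : x' ∈ T.hd := by
          rw [← mt_eq hZ]
          exact hx'.1
        have h1 := tw_inj hι a e hae (hd_trace e1) (hd_trace e2) h
        apply Subtype.ext
        exact Prod.ext h1.1 h1.2
      have hr : LinearMap.range φ = mtLie T a e := by
        rw [LinearMap.range_comp, Submodule.range_subtype]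
        rfl
      rw [← hr, LinearMap.finrank_range_of_inj hφ]
      have e1 : full ≃ₗ[ℂ] (mumfordTate T) × ℂ :=
        { toFun := fun p => (⟨p.1.1, p.2.1⟩, p.1.2)
          invFun := fun q => ⟨(q.1.1, q.2), q.1.2, trivial⟩
          left_inv := fun _ => rfl
          right_inv := fun _ => rfl
          map_add' := fun _ _ => rfl
          map_smul' := fun _ _ => rfl }
      rw [e1.finrank_eq, Module.finrank_prod, Module.finrank_self]
    rw [trdeg_log hu] at h
    have h2 : Module.finrank ℂ (logSpace (twisted T a e)) = Module.finrank ℂ (mtLie T a e) := by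
      rw [hfin]
      exact_mod_cast h
    have h3 := Submodule.eq_of_le_of_finrank_eq (log_le_mtLie hD hZ a e) h2
    intro p hp1 hp2
    refine orbit_of_torsor (mtLie_algSpan hZ a e) ?_ p ⟨hp1, hp2⟩
    rw [← h3]
    exact log_le_tang δ hu
  · intro h
    refine h1.2 ⟨torsor_of_all fun δ => ?_, hKS, hSS⟩
    exact (degree_iff hD hZ hW hKS hSS hP hm h5 a e δ).1 (h δ)

end

end Pool.Agent.W537.TD
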